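import Pool.Agent.Helper779.SV.Asm3

/-!
# Uniqueness of energy-maximising vortex dipole patches at small impulse (MP_22dedb_an, Q1)

There are a constant `μs > 0` and one patch `ω₀` such that for `0 < μ ≤ μs` the set `S_μ` of
maximisers of the kinetic energy consists exactly of the rescaled patches `ω₀^{r,τ}` of impulse `μ`,
and for `μ > μs` every maximiser is separated from the horizontal axis.
-/

open MeasureTheory Set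
open scoped Real

namespace Pool.Agent.Results.MP_22dedb_an.UniqueDipole

/-- mirror image of `A` in the horizontal axis -/
def mirror (A : Set (ℝ × ℝ)) : Set (ℝ × ℝ) := {x | (x.1, -x.2) ∈ A}

/-- the patch `1_A - 1_{A_-}` -/
noncomputable def patch (A : Set (ℝ × ℝ)) : ℝ × ℝ → ℝ :=
  fun x => A.indicator (fun _ => (1 : ℝ)) x - (mirror A).indicator (fun _ => (1 : ℝ)) x

/-- the Biot-Savart velocity `k * ω`, `k(z) = (1/2π) (-z₂, z₁)/|z|²` -/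
noncomputable def vel (ω : ℝ × ℝ → ℝ) (x : ℝ × ℝ) : ℝ × ℝ :=
  (∫ y : ℝ × ℝ, 1 / (2 * π) * (-(x.2 - y.2) / ((x.1 - y.1) ^ 2 + (x.2 - y.2) ^ 2)) * ω y,
   ∫ y : ℝ × ℝ, 1 / (2 * π) * ((x.1 - y.1) / ((x.1 - y.1) ^ 2 + (x.2 - y.2) ^ 2)) * ω y)

/-- the kinetic energy `E(ω) = (1/4) ∫ |k * ω|²` -/
noncomputable def KE (ω : ℝ × ℝ → ℝ) : ℝ := 1 / 4 * ∫ x : ℝ × ℝ, ((vel ω x).1 ^ 2 + (vel ω x).2 ^ 2)

/-- the class `K_μ` of the patches of impulse `μ` and mass at most `1` -/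
def KM (μ : ℝ) : Set (ℝ × ℝ → ℝ) :=
  {ω | ∃ A : Set (ℝ × ℝ), MeasurableSet A ∧ A ⊆ {x | 0 < x.2} ∧ ω = patch A ∧
    ∫ x : ℝ × ℝ, x.2 * ω x = μ ∧ ∫⁻ x : ℝ × ℝ, ENNReal.ofReal |ω x| ≤ 1}

/-- the set `S_μ` of the maximisers of the energy on `K_μ` -/
def SM (μ : ℝ) : Set (ℝ × ℝ → ℝ) := {ω | ω ∈ KM μ ∧ ∀ ω' ∈ KM μ, KE ω' ≤ KE ω}

/-- `ω^{r,τ}(x) = ω((x-(τ,0))/r)` -/
noncomputable def rescale (ω : ℝ × ℝ → ℝ) (r τ : ℝ) : ℝ × ℝ → ℝ :=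
  fun x => ω ((x.1 - τ) / r, x.2 / r)

theorem result : ∃ μs : ℝ, 0 < μs ∧ ∃ μ₀ : ℝ, 0 < μ₀ ∧ ∃ ω₀ ∈ KM μ₀,
    (∀ μ : ℝ, 0 < μ → μ ≤ μs →
      (∀ r τ : ℝ, 0 < r → r ^ 3 * μ₀ = μ → rescale ω₀ r τ ∈ SM μ) ∧
      (∀ ω ∈ SM μ, ∃ r τ : ℝ, 0 < r ∧ r ^ 3 * μ₀ = μ ∧ ω =ᵐ[volume] rescale ω₀ r τ)) ∧
    (∀ μ : ℝ, μs < μ → ∀ A : Set (ℝ × ℝ), MeasurableSet A → A ⊆ {x | 0 < x.2} → patch A ∈ SM μ →
      ∃ δ : ℝ, 0 < δ ∧ volume (A ∩ {x | x.2 < δ}) = 0) :=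
  SV.a_final

end Pool.Agent.Results.MP_22dedb_an.UniqueDipole
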